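import Pool.Agent.Work.MP_db9399_sv.Interface

/-!
# MP_db9399, PHASE 2 of exception (iii), part (ii): SERV (helper32)

All parities, from SELC and FLIP.
-/

set_option autoImplicit false

namespace Pool.Agent.Work.MP_db9399_sv.helper32

open Finset Classical
open Pool.Agent.Work.MP_db9399_all (nb)
open Pool.Agent.Work.MP_db9399_sl (InS Same Gout Gss Gin Gex Out)
open Pool.Agent.Work.MP_db9399_sv

universe u

/-- a list of coins, one after the other: a coin is used iff its own colour is even -/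
theorem fold (HF : Stmt_FLIP.{u}) {V : Type u} [Fintype V] {k : ℕ} (G EH : SimpleGraph V)
    (d : ℕ) (Ys Sh : Finset (Finset V)) (UH X0 : Finset V) (c0 tu c : V → Fin k)
    (F0 : V → Finset (Fin k)) (K0 : Finset (Fin k)) (μ : V → Fin k) (hEG : EH ≤ G)
    (hSh : Sh ⊆ Ys) (hdis : ∀ Y ∈ Ys, ∀ Y' ∈ Ys, Y ≠ Y' → Disjoint Y Y')
    (hUX : ∀ v ∈ UH, InS Ys v → v ∈ X0) :
    ∀ (L : List (Finset V × Cn V k)) (t : V → V → Fin k) (E : V → Finset (Fin k)),
      Cor G EH d Ys UH c0 tu c t E F0 K0 →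
      (∀ p ∈ L, p.1 ∈ Ys ∧ qv p.2 ∈ p.1 ∧ Vld G EH Ys Sh UH X0 K0 μ t E F0 p.2 ∧
        (kd p.2 = 1 → Mis G c K0 μ t (qw p.2))) →
      L.Pairwise (fun p p' => Cmp p.2 p'.2 ∧ (qv p'.2 ∈ p.1 ∨ qx p'.2 ∈ p.1 →
        al p.2 ≠ al p'.2 ∧ al p.2 ≠ be p'.2)) →
      ∃ (t' : V → V → Fin k) (E' : V → Finset (Fin k)), Cor G EH d Ys UH c0 tu c t' E' F0 K0 ∧
        (∀ v, (∀ p ∈ L, v ≠ qv p.2 ∧ v ≠ qx p.2) → E' v = E v) ∧
        (∀ y, ¬ InS Ys y → (∀ p ∈ L, kd p.2 = 1 → y ≠ qw p.2) → Mis G c K0 μ t y →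
          Mis G c K0 μ t' y) ∧
        (∀ Z ∈ Ys, ∀ b, (∀ p ∈ L, (b ≠ al p.2 ∧ b ≠ be p.2) ∨ (qv p.2 ∉ Z ∧ qx p.2 ∉ Z)) →
          ms Z UH F0 E' b = ms Z UH F0 E b) ∧
        (∀ p ∈ L, Odd (ms p.1 UH F0 E' (al p.2))) := by
  intro L
  induction L with
  | nil =>
    intro t E hC _ _
    exact ⟨t, E, hC, fun _ _ => rfl, fun _ _ _ h => h, fun _ _ _ _ => rfl,
      fun p hp => absurd hp (List.not_mem_nil)⟩
  | cons p L ih =>
    intro t E hC hL hP
    rw [List.pairwise_cons] at hP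
    obtain ⟨hp, hP'⟩ := hP
    have hLp := hL p (List.mem_cons_self)
    have key : ∀ p' ∈ L, (al p.2 ≠ al p'.2 ∧ al p.2 ≠ be p'.2) ∨ (qv p'.2 ∉ p.1 ∧ qx p'.2 ∉ p.1) := by
      intro p' hp'
      by_cases h : qv p'.2 ∈ p.1 ∨ qx p'.2 ∈ p.1
      · exact Or.inl ((hp p' hp').2 h)
      · exact Or.inr (by push Not at h; exact h)
    by_cases hodd : Odd (ms p.1 UH F0 E (al p.2))
    · obtain ⟨t', E', h1, h2, h3, h4, h5⟩ := ih t E hC
        (fun p' hp' => hL p' (List.mem_cons_of_mem _ hp')) hP'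
      refine ⟨t', E', h1, fun v hv => h2 v fun p' hp' => hv p' (List.mem_cons_of_mem _ hp'),
        fun y hy hy' => h3 y hy fun p' hp' => hy' p' (List.mem_cons_of_mem _ hp'),
        fun Z hZ b hb => h4 Z hZ b fun p' hp' => hb p' (List.mem_cons_of_mem _ hp'), ?_⟩
      intro p' hp'
      rcases List.mem_cons.1 hp' with rfl | hp''
      · rw [h4 p'.1 hLp.1 _ key]; exact hodd
      · exact h5 p' hp''
    · obtain ⟨f1, f2, f3, f4, f5, f6⟩ := HF G EH d Ys Sh UH X0 c0 tu c t E F0 K0 μ p.2 hEG hSh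
        hdis hUX hC hLp.2.2.1 hLp.2.2.2
      obtain ⟨t', E', h1, h2, h3, h4, h5⟩ := ih (flt t p.2) (flE E p.2) f1 (by
        intro p' hp'
        have hLp' := hL p' (List.mem_cons_of_mem _ hp')
        have hc := (hp p' hp').1
        refine ⟨hLp'.1, hLp'.2.1, f3 _ hLp'.2.2.1 hc, ?_⟩
        intro hk
        refine f2 _ ?_ (fun h1 => (hc.2.2.2.2 h1 hk).symm) (hLp'.2.2.2 hk)
        rcases hLp'.2.2.1.2.2.2.2.2.2 with h | h | h | h
        · rw [hk] at h; exact absurd h.1 (by decide)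
        · exact h.2.2.1
        · rw [hk] at h; exact absurd h.1 (by decide)
        · rw [hk] at h; exact absurd h.1 (by decide)) hP'
      refine ⟨t', E', h1, ?_, ?_, ?_, ?_⟩
      · intro v hv
        rw [h2 v fun p' hp' => hv p' (List.mem_cons_of_mem _ hp')]
        exact f4 v (hv p (List.mem_cons_self)).1 (hv p (List.mem_cons_self)).2
      · intro y hy hy' hM
        exact h3 y hy (fun p' hp' => hy' p' (List.mem_cons_of_mem _ hp'))
          (f2 y hy (hy' p (List.mem_cons_self)) hM)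
      · intro Z hZ b hb
        rw [h4 Z hZ b fun p' hp' => hb p' (List.mem_cons_of_mem _ hp')]
        exact f6 Z hZ b (hb p (List.mem_cons_self))
      · intro p' hp'
        rcases List.mem_cons.1 hp' with rfl | hp''
        · rw [h4 p'.1 hLp.1 _ key]
          exact (f5 p'.1 hLp.1 hLp.2.1).2 hodd
        · exact h5 p' hp''

/-- greedy choice of the hubs and vertices of one spot, the newest pair at the head of the list -/
theorem greedy {V : Type u} [Fintype V] {k : ℕ} (t : V → V → Fin k) (μ : V → Fin k)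
    (Hb : Finset V) (Cd : V → Finset V) (Ex : Finset (Fin k)) (m : ℕ)
    (hinj : ∀ y ∈ Hb, ∀ v ∈ Cd y, ∀ w ∈ Cd y, t v y = t w y → v = w) :
    ∀ n : ℕ, n ≤ m → m ≤ Hb.card → (∀ y ∈ Hb, 3 * m + Ex.card < (Cd y).card) →
    ∃ l : List (V × V), l.length = n ∧
      (∀ p ∈ l, p.1 ∈ Hb ∧ p.2 ∈ Cd p.1 ∧ t p.2 p.1 ∉ Ex) ∧
      l.Pairwise (fun a b => a.1 ≠ b.1 ∧ a.2 ≠ b.2 ∧ t a.2 a.1 ≠ t b.2 b.1 ∧
        t a.2 a.1 ≠ μ b.1) := by
  intro n
  induction n with
  | zero => intro _ _ _; exact ⟨[], rfl, by simp, List.Pairwise.nil⟩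
  | succ n ih =>
    intro hn hm hC
    obtain ⟨l, hl, h1, h2⟩ := ih (by omega) hm hC
    have hy : ∃ y ∈ Hb, y ∉ (l.map Prod.fst).toFinset := by
      apply Finset.exists_mem_notMem_of_card_lt_card
      calc (l.map Prod.fst).toFinset.card ≤ (l.map Prod.fst).length := List.toFinset_card_le _
        _ = n := by rw [List.length_map, hl]
        _ < Hb.card := by omega
    obtain ⟨y, hyH, hyl⟩ := hy
    set B : Finset (Fin k) := Ex ∪ ((l.map (fun a => t a.2 a.1)).toFinset ∪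
      (l.map (fun a => μ a.1)).toFinset) with hB
    have hBc : B.card ≤ Ex.card + (n + n) := by
      refine (Finset.card_union_le _ _).trans (Nat.add_le_add_left ?_ _)
      refine (Finset.card_union_le _ _).trans (Nat.add_le_add ?_ ?_)
      · refine (List.toFinset_card_le _).trans ?_
        rw [List.length_map, hl]
      · refine (List.toFinset_card_le _).trans ?_
        rw [List.length_map, hl]
    have hv : ∃ v ∈ Cd y, v ∉ (l.map Prod.snd).toFinset ∪ (Cd y).filter (fun v => t v y ∈ B) := by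
      apply Finset.exists_mem_notMem_of_card_lt_card
      have e1 : ((Cd y).filter (fun v => t v y ∈ B)).card ≤ B.card := by
        apply Finset.card_le_card_of_injOn (fun v => t v y)
        · intro v hv
          exact (Finset.mem_filter.1 hv).2
        · intro v hv w hw h
          exact hinj y hyH v (Finset.mem_filter.1 hv).1 w (Finset.mem_filter.1 hw).1 h
      have e2 : (l.map Prod.snd).toFinset.card ≤ n := by
        refine (List.toFinset_card_le _).trans ?_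
        rw [List.length_map, hl]
      have e3 := Finset.card_union_le (l.map Prod.snd).toFinset
        ((Cd y).filter (fun v => t v y ∈ B))
      have e4 := hC y hyH
      omega
    obtain ⟨v, hvC, hvn⟩ := hv
    rw [Finset.mem_union, not_or, Finset.mem_filter] at hvn
    obtain ⟨hv1, hv2⟩ := hvn
    have hvB : t v y ∉ B := fun h => hv2 ⟨hvC, h⟩
    rw [hB, Finset.mem_union, Finset.mem_union, not_or, not_or] at hvB
    refine ⟨(y, v) :: l, by simp [hl], ?_, ?_⟩
    · intro p hp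
      rcases List.mem_cons.1 hp with rfl | hp
      · exact ⟨hyH, hvC, hvB.1⟩
      · exact h1 p hp
    · rw [List.pairwise_cons]
      refine ⟨?_, h2⟩
      intro b hb
      refine ⟨?_, ?_, ?_, ?_⟩
      · rintro rfl
        exact hyl (List.mem_toFinset.2 (List.mem_map_of_mem hb))
      · rintro rfl
        exact hv1 (List.mem_toFinset.2 (List.mem_map_of_mem hb))
      · intro h
        apply hvB.2.1
        rw [List.mem_toFinset, List.mem_map]
        exact ⟨b, hb, h.symm⟩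
      · intro h
        apply hvB.2.2
        rw [List.mem_toFinset, List.mem_map]
        exact ⟨b, hb, h.symm⟩

/-- SERV: all parities, from SELC and FLIP. -/
theorem stmt_SERV (HF : Stmt_FLIP.{u}) (HS : Stmt_SELC.{u}) : Stmt_SERV.{u} := by
  intro z hz
  obtain ⟨δ1, hδ1, H⟩ := HS z hz
  refine ⟨δ1, hδ1, fun ρ hρ => ?_⟩
  obtain ⟨δ, θ, hδ, hθ, H⟩ := H ρ hρ
  refine ⟨δ, θ, hδ, hθ, fun δ' hδ' => ?_⟩
  have hδ2p : 0 < min (δ' / 2) (ρ / 16) := lt_min (by linarith) (by linarith)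
  obtain ⟨η0, d0, hη0, H⟩ := H (min (δ' / 2) (ρ / 16)) hδ2p
  have hδ2a : min (δ' / 2) (ρ / 16) ≤ δ' / 2 := min_le_left _ _
  have hδ2b : min (δ' / 2) (ρ / 16) ≤ ρ / 16 := min_le_right _ _
  generalize min (δ' / 2) (ρ / 16) = δ2 at H hδ2p hδ2a hδ2b
  have hηp : 0 < min η0 (min (δ' / 2) (ρ / 32)) :=
    lt_min hη0 (lt_min (by linarith) (by linarith))
  have hηa : min η0 (min (δ' / 2) (ρ / 32)) ≤ η0 := min_le_left _ _
  have hηb : min η0 (min (δ' / 2) (ρ / 32)) ≤ δ' / 2 := (min_le_right _ _).trans (min_le_left _ _)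
  have hηc : min η0 (min (δ' / 2) (ρ / 32)) ≤ ρ / 32 := (min_le_right _ _).trans (min_le_right _ _)
  generalize min η0 (min (δ' / 2) (ρ / 32)) = η at hηp hηa hηb hηc
  refine ⟨η, max d0 (⌈16 / ρ⌉₊ + 1), hηp, ?_⟩
  intro V _ k G EH d Ys Sh UH X0 c0 tu c t E F0 K0 μ Pm nL nD Ex Hb hd hS
  have hd0 : d0 ≤ d := (le_max_left _ _).trans hd
  have hd1 : 16 < ρ * d := by
    have h1 : ⌈16 / ρ⌉₊ + 1 ≤ d := (le_max_right _ _).trans hd
    have h2 : (16 / ρ : ℝ) ≤ ⌈16 / ρ⌉₊ := Nat.le_ceil _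
    have h3 : ((⌈16 / ρ⌉₊ : ℝ)) + 1 ≤ d := by exact_mod_cast h1
    have h4 : 16 / ρ < d := by linarith
    rwa [div_lt_iff₀ hρ, mul_comm] at h4
  have hdR : (0 : ℝ) ≤ d := Nat.cast_nonneg d
  have hS' : Sit z δ1 ρ δ θ η0 G EH d Ys Sh UH X0 c0 tu c t E F0 K0 μ Pm nL nD Ex Hb :=
    { hS with
      Es := fun Y hY => (hS.Es Y hY).trans (mul_le_mul_of_nonneg_right
        (mul_le_mul_of_nonneg_right hηa hdR) hdR)
      ndd := fun Y hY => (hS.ndd Y hY).trans (mul_le_mul_of_nonneg_right hηa hdR) }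
  rcases isEmpty_or_nonempty V with hV | hV
  · have hno : ∀ Y ∈ Sh, False := by
      intro Y hY
      have h1 := hS.low Y hY
      rw [Finset.eq_empty_of_isEmpty Y, Finset.card_empty] at h1
      have h2 : d = 0 := by omega
      rw [h2] at hd1
      norm_num at hd1
    exact ⟨t, E, ∅, hS.cor, fun _ _ => rfl, by simp, fun Y _ => by
      rw [Finset.inter_empty, Finset.card_empty]; push_cast; positivity,
      fun Y hY => (hno Y hY).elim⟩
  obtain ⟨f, T, f1, f2, f3, f4⟩ := H G EH d Ys Sh UH X0 c0 tu c t E F0 K0 μ Pm nL nD Ex Hb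
    hd0 hS'
  have FOLD := fold HF G EH d Ys Sh UH X0 c0 tu c F0 K0 μ hS.EG hS.sh hS.dis hS.UX
  have hSs : ∀ Y ∈ Sh, Y ∈ Ys := fun Y hY => hS.sh hY
  have huniq : ∀ Y ∈ Ys, ∀ Y' ∈ Ys, ∀ v, v ∈ Y → v ∈ Y' → Y = Y' := by
    intro Y hY Y' hY' v h1 h2
    by_contra hne
    exact (Finset.disjoint_left.1 (hS.dis Y hY Y' hY' hne)) h1 h2
  -- the coins of SELC
  obtain ⟨PP, hPP⟩ : ∃ PP : Finset (Finset V × ℕ), ∀ p, p ∈ PP ↔ p.1 ∈ Sh ∧ p.2 < nL p.1 := by
    refine ⟨(Sh ×ˢ range (Sh.sup nL)).filter (fun p => p.2 < nL p.1), fun p => ?_⟩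
    rw [Finset.mem_filter, Finset.mem_product, Finset.mem_range]
    constructor
    · rintro ⟨⟨h1, _⟩, h2⟩; exact ⟨h1, h2⟩
    · rintro ⟨h1, h2⟩; exact ⟨⟨h1, h2.trans_le (Finset.le_sup (f := nL) h1)⟩, h2⟩
  obtain ⟨Tc, hTc⟩ : ∃ Tc : Finset V → Finset (Finset V × ℕ), ∀ Y p, p ∈ Tc Y ↔
      p ∈ PP ∧ (qv (f p.1 p.2) ∈ Y ∨ qx (f p.1 p.2) ∈ Y) :=
    ⟨fun Y => PP.filter (fun p => qv (f p.1 p.2) ∈ Y ∨ qx (f p.1 p.2) ∈ Y),
      fun Y p => Finset.mem_filter⟩
  have hTcc : ∀ Y, (Tc Y).card ≤ (Y ∩ T).card := by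
    intro Y
    apply Finset.card_le_card_of_injOn
      (fun p => if qv (f p.1 p.2) ∈ Y then qv (f p.1 p.2) else qx (f p.1 p.2))
    · rintro ⟨Y', i⟩ hp
      obtain ⟨hp1, hp2⟩ := (hTc Y _).1 hp
      obtain ⟨hp3, hp4⟩ := (hPP _).1 hp1
      obtain ⟨g1, g2, g3, g4, g5, g6⟩ := f1 Y' hp3 i hp4
      simp only [Finset.coe_inter, Set.mem_inter_iff, Finset.mem_coe]
      split_ifs with h
      · exact ⟨h, g5⟩
      · exact ⟨hp2.resolve_left h, g6⟩
    · rintro ⟨Y', i⟩ hp ⟨Y'', j⟩ hq h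
      by_contra hne
      obtain ⟨hp3, hp4⟩ := (hPP _).1 ((hTc Y _).1 hp).1
      obtain ⟨hq3, hq4⟩ := (hPP _).1 ((hTc Y _).1 hq).1
      have hc := (f2 Y' hp3 i hp4 Y'' hq3 j hq4 hne).1
      obtain ⟨c1, c2, c3, c4, c5⟩ := hc
      simp only at h
      split_ifs at h
      · exact c1 h
      · exact c2 h
      · exact c3 h
      · exact c4 h
  obtain ⟨Bd, hBd⟩ : ∃ Bd : Finset V → Finset (Fin k), ∀ Y,
      Bd Y = (Tc Y).image (fun p => al (f p.1 p.2)) ∪ (Tc Y).image (fun p => be (f p.1 p.2)) :=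
    ⟨_, fun _ => rfl⟩
  have hBdc : ∀ Y, (Bd Y).card ≤ 2 * (Y ∩ T).card := by
    intro Y
    rw [hBd]
    refine (Finset.card_union_le _ _).trans ?_
    have h1 : ((Tc Y).image (fun p => al (f p.1 p.2))).card ≤ (Tc Y).card := Finset.card_image_le
    have h2 : ((Tc Y).image (fun p => be (f p.1 p.2))).card ≤ (Tc Y).card := Finset.card_image_le
    have h3 := hTcc Y
    omega
  have hBdm : ∀ Y, ∀ Y' ∈ Sh, ∀ i < nL Y', qv (f Y' i) ∈ Y ∨ qx (f Y' i) ∈ Y →
      al (f Y' i) ∈ Bd Y ∧ be (f Y' i) ∈ Bd Y := by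
    intro Y Y' hY' i hi h
    have hm : (Y', i) ∈ Tc Y := (hTc Y _).2 ⟨(hPP _).2 ⟨hY', hi⟩, h⟩
    rw [hBd]
    exact ⟨Finset.mem_union_left _ (Finset.mem_image.2 ⟨_, hm, rfl⟩),
      Finset.mem_union_right _ (Finset.mem_image.2 ⟨_, hm, rfl⟩)⟩
  -- the coins at the hubs
  have hB : ∀ Y ∈ Sh, ∃ l : List (V × V), l.length = nD Y ∧
      (∀ p ∈ l, p.1 ∈ Hb Y ∧ p.2 ∈ Y.filter (fun v => v ∉ T ∧ v ∉ X0 ∧ G.Adj v p.1 ∧
        ¬ EH.Adj v p.1 ∧ μ p.1 ∉ E v) ∧ t p.2 p.1 ∉ Ex Y ∪ Bd Y) ∧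
      l.Pairwise (fun a b => a.1 ≠ b.1 ∧ a.2 ≠ b.2 ∧ t a.2 a.1 ≠ t b.2 b.1 ∧
        t a.2 a.1 ≠ μ b.1) := by
    intro Y hY
    refine greedy t μ (Hb Y) (fun y => Y.filter (fun v => v ∉ T ∧ v ∉ X0 ∧ G.Adj v y ∧
        ¬ EH.Adj v y ∧ μ y ∉ E v)) (Ex Y ∪ Bd Y) (nD Y) ?_ (nD Y) le_rfl (hS.Hc Y hY) ?_
    · intro y hy v hv w hw h
      rw [Finset.mem_filter] at hv hw
      have hyS := (hS.Hy Y hY y hy).1
      refine hS.cor.ti y (Or.inl ⟨hv.2.2.2.1.symm, ?_⟩) (Or.inl ⟨hw.2.2.2.1.symm, ?_⟩) ?_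
      · rintro ⟨Z, hZ, h1, h2⟩
        exact hyS ⟨Z, hZ, h1⟩
      · rintro ⟨Z, hZ, h1, h2⟩
        exact hyS ⟨Z, hZ, h1⟩
      · rw [hS.cor.ts y v, hS.cor.ts y w]; exact h
    · intro y hy
      have e1 := (hS.Hy Y hY y hy).2.2
      have e2 : (Y.filter (fun v => v ∉ X0 ∧ G.Adj v y ∧ ¬ EH.Adj v y ∧ μ y ∉ E v)).card ≤
          (Y ∩ T).card + (Y.filter (fun v => v ∉ T ∧ v ∉ X0 ∧ G.Adj v y ∧
            ¬ EH.Adj v y ∧ μ y ∉ E v)).card := by
        refine le_trans (Finset.card_le_card ?_) (Finset.card_union_le _ _)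
        intro v hv
        rw [Finset.mem_filter] at hv
        rw [Finset.mem_union, Finset.mem_inter, Finset.mem_filter]
        by_cases h : v ∈ T
        · exact Or.inl ⟨hv.1, h⟩
        · exact Or.inr ⟨hv.1, h, hv.2⟩
      have e3 := f4 Y (hSs Y hY)
      have e4 := hS.ndd Y hY
      have e5 := hS.Exc Y hY
      have e2' : ((Y.filter (fun v => v ∉ X0 ∧ G.Adj v y ∧ ¬ EH.Adj v y ∧ μ y ∉ E v)).card : ℝ) ≤
          (Y ∩ T).card + ((Y.filter (fun v => v ∉ T ∧ v ∉ X0 ∧ G.Adj v y ∧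
            ¬ EH.Adj v y ∧ μ y ∉ E v)).card : ℝ) := by exact_mod_cast e2
      have e5' : ((Ex Y).card : ℝ) ≤ nL Y + nD Y + 4 := by exact_mod_cast e5
      have e9 : ((Ex Y ∪ Bd Y).card : ℝ) ≤ (Ex Y).card + 2 * ((Y ∩ T).card : ℝ) := by
        have h1 := Finset.card_union_le (Ex Y) (Bd Y)
        have h2 := hBdc Y
        have h3 : (Ex Y ∪ Bd Y).card ≤ (Ex Y).card + 2 * (Y ∩ T).card := by omega
        exact_mod_cast h3
      have e6 : η * d ≤ ρ / 32 * d := mul_le_mul_of_nonneg_right hηc hdR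
      have e7 : δ2 * d ≤ ρ / 16 * d := mul_le_mul_of_nonneg_right hδ2b hdR
      have e10 : (0 : ℝ) ≤ nL Y := Nat.cast_nonneg _
      have e8 : (3 * nD Y + (Ex Y ∪ Bd Y).card : ℝ) <
          ((Y.filter (fun v => v ∉ T ∧ v ∉ X0 ∧ G.Adj v y ∧
            ¬ EH.Adj v y ∧ μ y ∉ E v)).card : ℝ) := by
        nlinarith
      exact_mod_cast e8
  choose! l l1 l2 l3 using hB
  have mkB : ∃ mk : V × V → Cn V k, ∀ p, kd (mk p) = 1 ∧ qv (mk p) = p.2 ∧ qw (mk p) = p.1 ∧
      qx (mk p) = p.2 ∧ al (mk p) = t p.2 p.1 ∧ be (mk p) = μ p.1 :=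
    ⟨fun p => (1, p.2, p.1, p.2, t p.2 p.1, μ p.1), fun p => ⟨rfl, rfl, rfl, rfl, rfl, rfl⟩⟩
  obtain ⟨mk, hmk⟩ := mkB
  obtain ⟨LD, hLD⟩ : ∃ LD : List (Finset V × Cn V k),
      LD = Sh.toList.flatMap (fun Y => (l Y).map (fun a => (Y, mk a))) := ⟨_, rfl⟩
  obtain ⟨LS, hLS⟩ : ∃ LS : List (Finset V × Cn V k),
      LS = PP.toList.map (fun p => (p.1, f p.1 p.2)) := ⟨_, rfl⟩
  have hmemD : ∀ p, p ∈ LD ↔ ∃ Y ∈ Sh, ∃ a ∈ l Y, p = (Y, mk a) := by
    intro p
    rw [hLD, List.mem_flatMap]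
    constructor
    · rintro ⟨Y, hY, hp⟩
      rw [Finset.mem_toList] at hY
      rw [List.mem_map] at hp
      obtain ⟨a, ha, rfl⟩ := hp
      exact ⟨Y, hY, a, ha, rfl⟩
    · rintro ⟨Y, hY, a, ha, rfl⟩
      exact ⟨Y, Finset.mem_toList.2 hY, List.mem_map.2 ⟨a, ha, rfl⟩⟩
  have hmemS : ∀ p, p ∈ LS ↔ ∃ Y ∈ Sh, ∃ i < nL Y, p = (Y, f Y i) := by
    intro p
    rw [hLS, List.mem_map]
    constructor
    · rintro ⟨⟨Y, i⟩, h1, rfl⟩
      rw [Finset.mem_toList, hPP] at h1
      exact ⟨Y, h1.1, i, h1.2, rfl⟩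
    · rintro ⟨Y, hY, i, hi, rfl⟩
      exact ⟨(Y, i), Finset.mem_toList.2 ((hPP _).2 ⟨hY, hi⟩), rfl⟩
  obtain ⟨t2, E2, b1, b2, b3, b4, b5⟩ := FOLD (LD ++ LS) t E hS.cor (by
        intro p hp
        rw [List.mem_append] at hp
        rcases hp with hp | hp
        · rw [hmemD] at hp
          obtain ⟨Y, hY, a, ha, rfl⟩ := hp
          obtain ⟨m1, m2, m3, m4, m5, m6⟩ := hmk a
          obtain ⟨g1, g2, g3⟩ := l2 Y hY a ha
          rw [Finset.mem_filter] at g2
          obtain ⟨g4, g5, g6, g7, g8, g9⟩ := g2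
          have hyS := (hS.Hy Y hY _ g1).1
          have hM := hS.mis a.1 hyS
          refine ⟨hSs Y hY, by rw [m2]; exact g4, ⟨?_, ?_, ?_, ?_, ?_, ?_, Or.inr (Or.inl ?_)⟩, ?_⟩
          · rw [m2]; exact ⟨Y, hY, g4⟩
          · rw [m2]; exact g6
          · left; rw [m4]; exact g6
          · rw [m2, m5]
            refine hS.cor.Et _ _ ⟨Y, hSs Y hY, g4⟩ (Or.inl ⟨g7, ?_⟩)
            rintro ⟨Z, hZ, h1, h2⟩
            exact hyS ⟨Z, hZ, h2⟩
          · rw [m6]; exact hM.1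
          · rw [m2, m6]; exact g9
          · rw [m1, m2, m3, m4, m5, m6]
            exact ⟨rfl, rfl, hyS, g7, g8, rfl, rfl⟩
          · intro _
            rw [m3]; exact hM
        · rw [hmemS] at hp
          obtain ⟨Y, hY, i, hi, rfl⟩ := hp
          obtain ⟨g1, g2, g3, g4, g5, g6⟩ := f1 Y hY i hi
          refine ⟨hSs Y hY, g1, g2, ?_⟩
          intro hk
          refine hS.mis _ ?_
          rcases g2.2.2.2.2.2.2 with h | h | h | h
          · exact absurd (h.1.symm.trans hk) (by decide)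
          · exact h.2.2.1
          · exact absurd (h.1.symm.trans hk) (by decide)
          · exact absurd (h.1.symm.trans hk) (by decide)) (by
        rw [List.pairwise_append]
        refine ⟨?_, ?_, ?_⟩
        · rw [hLD, List.pairwise_flatMap]
          constructor
          · intro Y hY
            rw [Finset.mem_toList] at hY
            rw [List.pairwise_map]
            refine (l3 Y hY).imp ?_
            intro a b ⟨h1, h2, h3, h4⟩
            obtain ⟨m1, m2, m3, m4, m5, m6⟩ := hmk a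
            obtain ⟨n1, n2, n3, n4, n5, n6⟩ := hmk b
            refine ⟨⟨?_, ?_, ?_, ?_, ?_⟩, fun _ => ⟨?_, ?_⟩⟩
            · rw [m2, n2]; exact h2
            · rw [m2, n4]; exact h2
            · rw [m4, n2]; exact h2
            · rw [m4, n4]; exact h2
            · intro _ _
              rw [m3, n3]; exact h1
            · rw [m5, n5]; exact h3
            · rw [m5, n6]; exact h4
          · refine (Finset.nodup_toList _).pairwise_of_forall_ne ?_
            intro Y hY Y' hY' hne x hx y hy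
            rw [Finset.mem_toList] at hY hY'
            rw [List.mem_map] at hx hy
            obtain ⟨a, ha, rfl⟩ := hx
            obtain ⟨b, hb, rfl⟩ := hy
            obtain ⟨m1, m2, m3, m4, m5, m6⟩ := hmk a
            obtain ⟨n1, n2, n3, n4, n5, n6⟩ := hmk b
            have ga := l2 Y hY a ha
            have gb := l2 Y' hY' b hb
            have ga2 := (Finset.mem_filter.1 ga.2.1).1
            have gb2 := (Finset.mem_filter.1 gb.2.1).1
            have hv : a.2 ≠ b.2 := by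
              intro h
              exact hne (huniq Y (hSs Y hY) Y' (hSs Y' hY') a.2 ga2 (h ▸ gb2))
            have hy : a.1 ≠ b.1 := by
              intro h
              exact (Finset.disjoint_left.1 (hS.Hd Y hY Y' hY' hne)) ga.1 (h ▸ gb.1)
            refine ⟨⟨?_, ?_, ?_, ?_, ?_⟩, fun h => ?_⟩
            · rw [m2, n2]; exact hv
            · rw [m2, n4]; exact hv
            · rw [m4, n2]; exact hv
            · rw [m4, n4]; exact hv
            · intro _ _
              rw [m3, n3]; exact hy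
            · exfalso
              have hb' : b.2 ∈ Y := by
                rcases h with h | h
                · change qv (mk b) ∈ Y at h
                  rwa [n2] at h
                · change qx (mk b) ∈ Y at h
                  rwa [n4] at h
              exact hne (huniq Y (hSs Y hY) Y' (hSs Y' hY') b.2 hb' gb2)
        · rw [hLS, List.pairwise_map]
          refine (Finset.nodup_toList _).pairwise_of_forall_ne ?_
          rintro ⟨Y, i⟩ h1 ⟨Y', i'⟩ h2 hne
          rw [Finset.mem_toList, hPP] at h1 h2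
          exact f2 Y h1.1 i h1.2 Y' h2.1 i' h2.2 hne
        · intro p hp q hq
          rw [hmemD] at hp
          rw [hmemS] at hq
          obtain ⟨Y, hY, a, ha, rfl⟩ := hp
          obtain ⟨Y', hY', i, hi, rfl⟩ := hq
          obtain ⟨m1, m2, m3, m4, m5, m6⟩ := hmk a
          obtain ⟨g1, g2, g3⟩ := l2 Y hY a ha
          rw [Finset.mem_filter] at g2
          obtain ⟨h1, h2, h3, h4, h5, h6⟩ := f1 Y' hY' i hi
          have gT : a.2 ∉ T := g2.2.1
          refine ⟨⟨?_, ?_, ?_, ?_, ?_⟩, fun h => ?_⟩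
          · intro h; rw [m2] at h; exact gT (h ▸ h5)
          · intro h; rw [m2] at h; exact gT (h ▸ h6)
          · intro h; rw [m4] at h; exact gT (h ▸ h5)
          · intro h; rw [m4] at h; exact gT (h ▸ h6)
          · intro _ hk h
            rw [m3] at h
            exact (hS.Hy Y hY _ g1).2.1 _ (h ▸ h4 hk)
          · have hb := hBdm Y Y' hY' i hi h
            change al (mk a) ≠ al (f Y' i) ∧ al (mk a) ≠ be (f Y' i)
            rw [m5]
            constructor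
            · intro h7
              exact g3 (Finset.mem_union_right _ (h7 ▸ hb.1))
            · intro h7
              exact g3 (Finset.mem_union_right _ (h7 ▸ hb.2)))
  -- final
  have hEK : ∀ Y ∈ Ys, ∀ v ∈ Y, v ∉ X0 → E v ⊆ K0 := by
    intro Y hY v hv hX
    exact hS.cor.EK v ⟨Y, hY, hv⟩ fun h => hX (hS.UX v h ⟨Y, hY, hv⟩)
  set VB : Finset V := Sh.biUnion (fun Y => ((l Y).map Prod.snd).toFinset) with hVB
  have hVBm : ∀ Y ∈ Sh, ∀ a ∈ l Y, a.2 ∈ VB := by
    intro Y hY a ha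
    rw [hVB, Finset.mem_biUnion]
    exact ⟨Y, hY, List.mem_toFinset.2 (List.mem_map.2 ⟨a, ha, rfl⟩)⟩
  have hVBe : ∀ v ∈ VB, ∃ Y ∈ Sh, ∃ a ∈ l Y, v = a.2 := by
    intro v hv
    rw [hVB, Finset.mem_biUnion] at hv
    obtain ⟨Y, hY, h⟩ := hv
    rw [List.mem_toFinset, List.mem_map] at h
    obtain ⟨a, ha, rfl⟩ := h
    exact ⟨Y, hY, a, ha, rfl⟩
  refine ⟨t2, E2, T ∪ VB, b1, ?_, ?_, ?_, ?_⟩
  · intro v hv
    rw [Finset.mem_union, not_or] at hv
    refine b2 v fun p hp => ?_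
    rw [List.mem_append] at hp
    rcases hp with hp | hp
    · rw [hmemD] at hp
      obtain ⟨Y, hY, a, ha, rfl⟩ := hp
      obtain ⟨m1, m2, m3, m4, m5, m6⟩ := hmk a
      constructor
      · intro h
        change v = qv (mk a) at h
        rw [m2] at h
        exact hv.2 (h ▸ hVBm Y hY a ha)
      · intro h
        change v = qx (mk a) at h
        rw [m4] at h
        exact hv.2 (h ▸ hVBm Y hY a ha)
    · rw [hmemS] at hp
      obtain ⟨Y, hY, i, hi, rfl⟩ := hp
      obtain ⟨g1, g2, g3, g4, g5, g6⟩ := f1 Y hY i hi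
      exact ⟨fun h => hv.1 (h ▸ g5), fun h => hv.1 (h ▸ g6)⟩
  · intro v hv
    rw [Finset.mem_union] at hv
    rcases hv with hv | hv
    · exact f3 v hv
    · obtain ⟨Y, hY, a, ha, rfl⟩ := hVBe v hv
      exact Or.inl (Finset.mem_filter.1 (l2 Y hY a ha).2.1).2.2.1
  · intro Y hY
    have e1 : ((Y ∩ VB).card : ℝ) ≤ η * d := by
      by_cases hYD : Y ∈ Sh
      · have e2 : Y ∩ VB ⊆ ((l Y).map Prod.snd).toFinset := by
          intro v hv
          rw [Finset.mem_inter] at hv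
          obtain ⟨Y', hY', a, ha, rfl⟩ := hVBe v hv.2
          have : Y' = Y := huniq Y' (hSs Y' hY') Y hY a.2
            (Finset.mem_filter.1 (l2 Y' hY' a ha).2.1).1 hv.1
          subst this
          exact List.mem_toFinset.2 (List.mem_map.2 ⟨a, ha, rfl⟩)
        have e3 : (Y ∩ VB).card ≤ nD Y := by
          refine (Finset.card_le_card e2).trans ?_
          refine (List.toFinset_card_le _).trans ?_
          rw [List.length_map, l1 Y hYD]
        have e4 := hS.ndd Y hYD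
        have e5 : ((Y ∩ VB).card : ℝ) ≤ nD Y := by exact_mod_cast e3
        have e6 : (0 : ℝ) ≤ nL Y := Nat.cast_nonneg _
        linarith
      · have e2 : Y ∩ VB = ∅ := by
          rw [Finset.eq_empty_iff_forall_notMem]
          intro v hv
          rw [Finset.mem_inter] at hv
          obtain ⟨Y', hY', a, ha, rfl⟩ := hVBe v hv.2
          have : Y' = Y := huniq Y' (hSs Y' hY') Y hY a.2
            (Finset.mem_filter.1 (l2 Y' hY' a ha).2.1).1 hv.1
          exact hYD (this ▸ hY')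
        rw [e2, Finset.card_empty]
        exact_mod_cast mul_nonneg hηp.le hdR
    have e2 := f4 Y hY
    have e3 : ((Y ∩ (T ∪ VB)).card : ℝ) ≤ (Y ∩ T).card + (Y ∩ VB).card := by
      rw [Finset.inter_union_distrib_left]
      exact_mod_cast Finset.card_union_le _ _
    have e6 : η * d ≤ δ' / 2 * d := mul_le_mul_of_nonneg_right hηb hdR
    have e7 : δ2 * d ≤ δ' / 2 * d := mul_le_mul_of_nonneg_right hδ2a hdR
    linarith
  · intro Y hY
    have hYs := hSs Y hY
    have u1 : (range (nL Y)).image (fun i => al (f Y i)) ⊆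
        (K0 \ Ex Y).filter (fun b => Odd (ms Y UH F0 E2 b)) := by
      intro b hb
      rw [Finset.mem_image] at hb
      obtain ⟨i, hi, rfl⟩ := hb
      rw [Finset.mem_range] at hi
      obtain ⟨g1, g2, g3, g4, g5, g6⟩ := f1 Y hY i hi
      rw [Finset.mem_filter, Finset.mem_sdiff]
      refine ⟨⟨hEK Y hYs _ g1 g2.2.1 g2.2.2.2.1, g3⟩, ?_⟩
      exact b5 (Y, f Y i) (List.mem_append_right _ ((hmemS _).2 ⟨Y, hY, i, hi, rfl⟩))
    have u2 : ((l Y).map (fun a => t a.2 a.1)).toFinset ⊆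
        (K0 \ Ex Y).filter (fun b => Odd (ms Y UH F0 E2 b)) := by
      intro b hb
      rw [List.mem_toFinset, List.mem_map] at hb
      obtain ⟨a, ha, rfl⟩ := hb
      obtain ⟨m1, m2, m3, m4, m5, m6⟩ := hmk a
      obtain ⟨g1, g2, g3⟩ := l2 Y hY a ha
      rw [Finset.mem_filter] at g2
      obtain ⟨g4, g5, g6, g7, g8, g9⟩ := g2
      have hyS := (hS.Hy Y hY _ g1).1
      rw [Finset.mem_filter, Finset.mem_sdiff]
      refine ⟨⟨?_, fun h => g3 (Finset.mem_union_left _ h)⟩, ?_⟩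
      · refine hEK Y hYs _ g4 g6 ?_
        refine hS.cor.Et _ _ ⟨Y, hYs, g4⟩ (Or.inl ⟨g7, ?_⟩)
        rintro ⟨Z, hZ, h1, h2⟩
        exact hyS ⟨Z, hZ, h2⟩
      · have := b5 (Y, mk a) (List.mem_append_left _ ((hmemD _).2 ⟨Y, hY, a, ha, rfl⟩))
        rwa [m5] at this
    have u3 : Disjoint ((range (nL Y)).image (fun i => al (f Y i)))
        ((l Y).map (fun a => t a.2 a.1)).toFinset := by
      rw [Finset.disjoint_left]
      intro b hb hb'
      rw [Finset.mem_image] at hb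
      obtain ⟨i, hi, rfl⟩ := hb
      rw [Finset.mem_range] at hi
      rw [List.mem_toFinset, List.mem_map] at hb'
      obtain ⟨a, ha, h⟩ := hb'
      have h1 := (hBdm Y Y hY i hi (Or.inl (f1 Y hY i hi).1)).1
      exact (l2 Y hY a ha).2.2 (Finset.mem_union_right _ (h ▸ h1))
    have u4 : ((range (nL Y)).image (fun i => al (f Y i))).card = nL Y := by
      rw [Finset.card_image_of_injOn, Finset.card_range]
      intro i hi j hj h
      by_contra hne
      have hi' : i < nL Y := Finset.mem_range.1 hi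
      have hj' : j < nL Y := Finset.mem_range.1 hj
      have := (f2 Y hY i hi' Y hY j hj' (fun h => hne (Prod.ext_iff.1 h).2)).2
        (Or.inl (f1 Y hY j hj').1)
      exact this.1 h
    have u5 : ((l Y).map (fun a => t a.2 a.1)).toFinset.card = nD Y := by
      rw [List.toFinset_card_of_nodup, List.length_map, l1 Y hY]
      rw [List.nodup_iff_pairwise_ne, List.pairwise_map]
      exact (l3 Y hY).imp fun h => h.2.2.1
    calc nL Y + nD Y = ((range (nL Y)).image (fun i => al (f Y i)) ∪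
          ((l Y).map (fun a => t a.2 a.1)).toFinset).card := by
            rw [Finset.card_union_of_disjoint u3, u4, u5]
      _ ≤ _ := Finset.card_le_card (Finset.union_subset u1 u2)

end Pool.Agent.Work.MP_db9399_sv.helper32
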